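import Mathlib

set_option autoImplicit false

/-!
# The space of null sequences (helper lemmas)
-/

namespace Q97.C0

open Filter Topology ZeroAtInfty

/-- The space of real null sequences. -/
abbrev c0 := ZeroAtInftyContinuousMap ℕ ℝ

theorem tendsto_zero (z : c0) : Tendsto (fun n => z n) atTop (𝓝 0) := by
  have := z.zero_at_infty'
  rwa [cocompact_eq_cofinite, Nat.cofinite_eq_atTop] at this

/-- A null sequence as an element of `c0`. -/
noncomputable def mk (f : ℕ → ℝ) (hf : Tendsto f atTop (𝓝 0)) : c0 where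
  toFun := f
  continuous_toFun := continuous_of_discreteTopology
  zero_at_infty' := by rwa [cocompact_eq_cofinite, Nat.cofinite_eq_atTop]

@[simp] theorem mk_apply (f : ℕ → ℝ) (hf : Tendsto f atTop (𝓝 0)) (n : ℕ) : mk f hf n = f n := rfl

theorem tendsto_of_eventually_zero {f : ℕ → ℝ} {N : ℕ} (h : ∀ n, N ≤ n → f n = 0) :
    Tendsto f atTop (𝓝 0) :=
  tendsto_const_nhds.congr' (eventually_atTop.mpr ⟨N, fun n hn => (h n hn).symm⟩)

theorem norm_le_iff {z : c0} {C : ℝ} (hC : 0 ≤ C) : ‖z‖ ≤ C ↔ ∀ n, |z n| ≤ C := by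
  rw [← ZeroAtInftyContinuousMap.norm_toBCF_eq_norm, BoundedContinuousFunction.norm_le hC]
  rfl

theorem abs_apply_le (z : c0) (n : ℕ) : |z n| ≤ ‖z‖ :=
  (norm_le_iff (norm_nonneg z)).mp le_rfl n

/-- The indicator sequence of `{0, …, n}`. -/
noncomputable def ones (n : ℕ) : c0 :=
  mk (fun i => if i ≤ n then 1 else 0) (tendsto_of_eventually_zero (N := n + 1) fun i hi => by
    rw [if_neg]; omega)

theorem ones_apply (n i : ℕ) : ones n i = if i ≤ n then 1 else 0 := rfl

/-- The unit vectors. -/
noncomputable def e (j : ℕ) : c0 :=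
  mk (fun i => if i = j then 1 else 0) (tendsto_of_eventually_zero (N := j + 1) fun i hi => by
    rw [if_neg]; omega)

theorem e_apply (j i : ℕ) : e j i = if i = j then 1 else 0 := rfl

/-- Truncations. -/
noncomputable def trunc (n : ℕ) (z : c0) : c0 :=
  mk (fun i => if i < n then z i else 0) (tendsto_of_eventually_zero (N := n) fun i hi => by
    rw [if_neg]; omega)

theorem trunc_apply (n : ℕ) (z : c0) (i : ℕ) : trunc n z i = if i < n then z i else 0 := rfl

theorem trunc_eq_sum (n : ℕ) (z : c0) : trunc n z = ∑ i ∈ Finset.range n, z i • e i := by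
  induction n with
  | zero => ext i; simp [trunc_apply]
  | succ n ih =>
    rw [Finset.sum_range_succ, ← ih]
    ext i
    simp only [trunc_apply, ZeroAtInftyContinuousMap.add_apply,
      ZeroAtInftyContinuousMap.smul_apply, e_apply, smul_eq_mul]
    by_cases h1 : i < n
    · have h2 : i < n + 1 := by omega
      have h3 : i ≠ n := by omega
      simp [h1, h2, h3]
    · by_cases h2 : i = n
      · subst h2; simp
      · have h3 : ¬ i < n + 1 := by omega
        simp [h1, h2, h3]

theorem sum_smul_e_apply (F : Finset ℕ) (ε : ℕ → ℝ) (i : ℕ) :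
    (∑ n ∈ F, ε n • e n : c0) i = if i ∈ F then ε i else 0 := by
  classical
  have h3 : (∑ n ∈ F, ε n • e n : c0) i = ∑ n ∈ F, ε n * e n i := by
    induction F using Finset.induction_on with
    | empty => simp
    | insert a s ha ih =>
      rw [Finset.sum_insert ha, Finset.sum_insert ha, ZeroAtInftyContinuousMap.add_apply,
        ZeroAtInftyContinuousMap.smul_apply, smul_eq_mul, ih]
  rw [h3]
  by_cases hi : i ∈ F
  · rw [Finset.sum_eq_single i, if_pos hi]
    · rw [e_apply, if_pos rfl, mul_one]
    · intro n _ hn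
      rw [e_apply, if_neg (Ne.symm hn), mul_zero]
    · intro h; exact absurd hi h
  · rw [Finset.sum_eq_zero, if_neg hi]
    intro n hn
    rw [e_apply, if_neg (by rintro rfl; exact hi hn), mul_zero]

theorem tendsto_trunc (z : c0) : Tendsto (fun n => trunc n z) atTop (𝓝 z) := by
  rw [Metric.tendsto_atTop]
  intro ε hε
  obtain ⟨N, hN⟩ := (Metric.tendsto_atTop.mp (tendsto_zero z)) (ε / 2) (by positivity)
  refine ⟨N, fun n hn => ?_⟩
  rw [dist_eq_norm]
  refine lt_of_le_of_lt ?_ (half_lt_self hε)
  rw [norm_le_iff (by positivity)]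
  intro i
  rw [ZeroAtInftyContinuousMap.sub_apply, trunc_apply]
  by_cases h : i < n
  · rw [if_pos h, sub_self, abs_zero]; positivity
  · rw [if_neg h, zero_sub, abs_neg]
    have := hN i (by omega)
    rw [Real.dist_eq, sub_zero] at this
    exact this.le

end Q97.C0
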