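import Mathlib

set_option autoImplicit false

/-!
# The space of null sequences as a type of its own (helper lemmas)
-/

namespace Q97

open Filter Topology

/-- The space of real null sequences. -/
noncomputable def C0 : Type := ZeroAtInftyContinuousMap ℕ ℝ

namespace C0

noncomputable instance : NormedAddCommGroup C0 :=
  inferInstanceAs (NormedAddCommGroup (ZeroAtInftyContinuousMap ℕ ℝ))

noncomputable instance : NormedSpace ℝ C0 :=
  inferInstanceAs (NormedSpace ℝ (ZeroAtInftyContinuousMap ℕ ℝ))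

instance : CompleteSpace C0 := inferInstanceAs (CompleteSpace (ZeroAtInftyContinuousMap ℕ ℝ))

/-- The coordinates of a null sequence. -/
noncomputable def coeFn (z : C0) : ℕ → ℝ := DFunLike.coe (F := ZeroAtInftyContinuousMap ℕ ℝ) z

noncomputable instance : CoeFun C0 (fun _ => ℕ → ℝ) := ⟨coeFn⟩

theorem ext {z w : C0} (h : ∀ n, z n = w n) : z = w :=
  DFunLike.ext (F := ZeroAtInftyContinuousMap ℕ ℝ) z w h

@[simp] theorem add_apply (z w : C0) (n : ℕ) : (z + w) n = z n + w n := rfl
@[simp] theorem sub_apply (z w : C0) (n : ℕ) : (z - w) n = z n - w n := rfl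
@[simp] theorem neg_apply (z : C0) (n : ℕ) : (-z) n = -z n := rfl
@[simp] theorem smul_apply (c : ℝ) (z : C0) (n : ℕ) : (c • z) n = c * z n := rfl
@[simp] theorem zero_apply (n : ℕ) : (0 : C0) n = 0 := rfl

theorem tendsto_zero (z : C0) : Tendsto (fun n => z n) atTop (𝓝 0) := by
  have : Tendsto (fun n => z n) (cocompact ℕ) (𝓝 0) :=
    ZeroAtInftyContinuousMap.zero_at_infty' (show ZeroAtInftyContinuousMap ℕ ℝ from z)
  rwa [cocompact_eq_cofinite, Nat.cofinite_eq_atTop] at this

/-- A null sequence as an element of `C0`. -/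
noncomputable def mk (f : ℕ → ℝ) (hf : Tendsto f atTop (𝓝 0)) : C0 :=
  show ZeroAtInftyContinuousMap ℕ ℝ from
  { toFun := f
    continuous_toFun := continuous_of_discreteTopology
    zero_at_infty' := by rwa [cocompact_eq_cofinite, Nat.cofinite_eq_atTop] }

@[simp] theorem mk_apply (f : ℕ → ℝ) (hf : Tendsto f atTop (𝓝 0)) (n : ℕ) : mk f hf n = f n := rfl

theorem tendsto_of_eventually_zero {f : ℕ → ℝ} {N : ℕ} (h : ∀ n, N ≤ n → f n = 0) :
    Tendsto f atTop (𝓝 0) :=
  tendsto_const_nhds.congr' (eventually_atTop.mpr ⟨N, fun n hn => (h n hn).symm⟩)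

theorem norm_le_iff {z : C0} {C : ℝ} (hC : 0 ≤ C) : ‖z‖ ≤ C ↔ ∀ n, |z n| ≤ C := by
  have h1 : ‖z‖ = ‖ZeroAtInftyContinuousMap.toBCF (show ZeroAtInftyContinuousMap ℕ ℝ from z)‖ :=
    ZeroAtInftyContinuousMap.norm_toBCF_eq_norm.symm
  rw [h1, BoundedContinuousFunction.norm_le hC]
  rfl

theorem abs_apply_le (z : C0) (n : ℕ) : |z n| ≤ ‖z‖ :=
  (norm_le_iff (norm_nonneg z)).mp le_rfl n

theorem norm_lt_iff_exists {z : C0} {c : ℝ} (hc : 0 ≤ c) (h : c < ‖z‖) : ∃ n, c < |z n| := by
  by_contra hcon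
  push Not at hcon
  exact absurd ((norm_le_iff hc).mpr hcon) (not_le.mpr h)

/-- Evaluation at a coordinate. -/
noncomputable def eval (n : ℕ) : C0 →L[ℝ] ℝ :=
  LinearMap.mkContinuous
    { toFun := fun z => z n
      map_add' := fun _ _ => rfl
      map_smul' := fun _ _ => rfl } 1 (fun z => by
        rw [one_mul]; exact abs_apply_le z n)

@[simp] theorem eval_apply (n : ℕ) (z : C0) : eval n z = z n := rfl

theorem norm_eval_le (n : ℕ) : ‖eval n‖ ≤ 1 := LinearMap.mkContinuous_norm_le _ zero_le_one _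

@[simp] theorem sum_apply {ι : Type*} (F : Finset ι) (z : ι → C0) (n : ℕ) :
    (∑ i ∈ F, z i) n = ∑ i ∈ F, z i n := by
  exact map_sum (eval n) z F

/-- The indicator sequence of `{0, …, n}`. -/
noncomputable def ones (n : ℕ) : C0 :=
  mk (fun i => if i ≤ n then 1 else 0) (tendsto_of_eventually_zero (N := n + 1) fun i hi => by
    rw [if_neg]; omega)

theorem ones_apply (n i : ℕ) : ones n i = if i ≤ n then 1 else 0 := rfl

/-- The unit vectors. -/
noncomputable def e (j : ℕ) : C0 :=
  mk (fun i => if i = j then 1 else 0) (tendsto_of_eventually_zero (N := j + 1) fun i hi => by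
    rw [if_neg]; omega)

theorem e_apply (j i : ℕ) : e j i = if i = j then 1 else 0 := rfl

theorem norm_ones (n : ℕ) : ‖ones n‖ ≤ 1 := by
  rw [norm_le_iff zero_le_one]
  intro i
  rw [ones_apply]
  split_ifs <;> simp

theorem sum_smul_e_apply (F : Finset ℕ) (ε : ℕ → ℝ) (i : ℕ) :
    (∑ n ∈ F, ε n • e n) i = if i ∈ F then ε i else 0 := by
  rw [sum_apply]
  by_cases hi : i ∈ F
  · rw [Finset.sum_eq_single i, if_pos hi]
    · rw [smul_apply, e_apply, if_pos rfl, mul_one]
    · intro n _ hn
      rw [smul_apply, e_apply, if_neg (Ne.symm hn), mul_zero]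
    · intro h; exact absurd hi h
  · rw [Finset.sum_eq_zero, if_neg hi]
    intro n hn
    rw [smul_apply, e_apply, if_neg (by rintro rfl; exact hi hn), mul_zero]

/-- Truncations. -/
noncomputable def trunc (n : ℕ) (z : C0) : C0 :=
  mk (fun i => if i < n then z i else 0) (tendsto_of_eventually_zero (N := n) fun i hi => by
    rw [if_neg]; omega)

theorem trunc_apply (n : ℕ) (z : C0) (i : ℕ) : trunc n z i = if i < n then z i else 0 := rfl

theorem trunc_eq_sum (n : ℕ) (z : C0) : trunc n z = ∑ i ∈ Finset.range n, z i • e i := by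
  apply ext
  intro i
  rw [sum_smul_e_apply, trunc_apply]
  simp

theorem tendsto_trunc (z : C0) : Tendsto (fun n => trunc n z) atTop (𝓝 z) := by
  rw [Metric.tendsto_atTop]
  intro ε hε
  obtain ⟨N, hN⟩ := (Metric.tendsto_atTop.mp (tendsto_zero z)) (ε / 2) (by positivity)
  refine ⟨N, fun n hn => ?_⟩
  rw [dist_eq_norm]
  refine lt_of_le_of_lt ?_ (half_lt_self hε)
  rw [norm_le_iff (by positivity)]
  intro i
  rw [sub_apply, trunc_apply]
  by_cases h : i < n
  · rw [if_pos h, sub_self, abs_zero]; positivity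
  · rw [if_neg h, zero_sub, abs_neg]
    have := hN i (by omega)
    rw [Real.dist_eq, sub_zero] at this
    exact this.le

end C0

end Q97
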