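import Mathlib

set_option autoImplicit false

/-!
# Equivalent renormings of normed spaces (helper construction)
-/

namespace Q97

/-- Data of an equivalent norm on a normed space `V`. -/
structure EqNorm (𝕜 : Type*) [RCLike 𝕜] (V : Type*) [NormedAddCommGroup V] [NormedSpace 𝕜 V] where
  /-- the new norm -/
  N : V → ℝ
  add_le : ∀ x y, N (x + y) ≤ N x + N y
  smul : ∀ (c : 𝕜) x, N (c • x) = ‖c‖ * N x
  /-- first constant -/
  C : ℝ
  le : ∀ x, ‖x‖ ≤ C * N x
  /-- second constant -/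
  D : ℝ
  ge : ∀ x, N x ≤ D * ‖x‖

namespace EqNorm

variable {𝕜 : Type*} [RCLike 𝕜] {V : Type*} [NormedAddCommGroup V] [NormedSpace 𝕜 V]
  (E : EqNorm 𝕜 V)

/-- The vector space `V` with the norm `E.N`. -/
@[nolint unusedArguments]
def Space (_ : EqNorm 𝕜 V) : Type _ := V

instance : AddCommGroup E.Space := inferInstanceAs (AddCommGroup V)

instance : Module 𝕜 E.Space := inferInstanceAs (Module 𝕜 V)

instance : Norm E.Space := ⟨E.N⟩

theorem N_zero : E.N 0 = 0 := by
  have := E.smul 0 0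
  simpa using this

theorem N_neg (x : V) : E.N (-x) = E.N x := by
  have := E.smul (-1) x
  simpa using this

theorem N_nonneg (x : V) : 0 ≤ E.N x := by
  have h := E.add_le x (-x)
  rw [add_neg_cancel, E.N_zero, E.N_neg] at h
  linarith

theorem eq_zero_of_N {x : V} (h : E.N x = 0) : x = 0 := by
  have := E.le x
  rw [h, mul_zero] at this
  exact norm_le_zero_iff.mp this

theorem core : NormedSpace.Core 𝕜 E.Space where
  norm_nonneg := E.N_nonneg
  norm_smul := E.smul
  norm_triangle := E.add_le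
  norm_eq_zero_iff x := ⟨fun h => E.eq_zero_of_N h, fun h => by rw [h]; exact E.N_zero⟩

noncomputable instance : NormedAddCommGroup E.Space := NormedAddCommGroup.ofCore E.core

noncomputable instance : NormedSpace 𝕜 E.Space := NormedSpace.ofCore E.core

/-- The identity map as a linear equivalence. -/
def toSpace : V ≃ₗ[𝕜] E.Space := LinearEquiv.refl 𝕜 V

theorem norm_toSpace (x : V) : ‖E.toSpace x‖ = E.N x := rfl

theorem norm_def (x : E.Space) : ‖x‖ = E.N (E.toSpace.symm x) := rfl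

/-- The identity map as a linear homeomorphism. -/
noncomputable def toSpaceCLE : V ≃L[𝕜] E.Space :=
  { E.toSpace with
    continuous_toFun := (E.toSpace.toLinearMap.mkContinuous E.D fun x => E.ge x).continuous
    continuous_invFun := (E.toSpace.symm.toLinearMap.mkContinuous E.C fun x => E.le x).continuous }

@[simp] theorem toSpaceCLE_apply (x : V) : E.toSpaceCLE x = E.toSpace x := rfl

@[simp] theorem toSpaceCLE_symm_apply (x : E.Space) : E.toSpaceCLE.symm x = E.toSpace.symm x := rfl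

instance [CompleteSpace V] : CompleteSpace E.Space :=
  (completeSpace_congr (e := E.toSpaceCLE.toEquiv) E.toSpaceCLE.isUniformEmbedding).mp inferInstance

end EqNorm

end Q97

namespace Q97.EqNorm

variable {𝕜 : Type*} [RCLike 𝕜] {V : Type*} [NormedAddCommGroup V] [NormedSpace 𝕜 V]

/-- The supremum of a family of seminorms as an equivalent norm. -/
noncomputable def ofSup {ι : Type*} [Nonempty ι] (p : ι → V → ℝ)
    (hadd : ∀ i x y, p i (x + y) ≤ p i x + p i y)
    (hsmul : ∀ i (c : 𝕜) x, p i (c • x) = ‖c‖ * p i x)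
    (D : ℝ) (hD : ∀ i x, p i x ≤ D * ‖x‖)
    (C : ℝ) (hC : ∀ x b, (∀ i, p i x ≤ b) → ‖x‖ ≤ C * b) : EqNorm 𝕜 V where
  N x := ⨆ i, p i x
  add_le x y := by
    apply ciSup_le
    intro i
    have h1 : BddAbove (Set.range fun i => p i x) := ⟨D * ‖x‖, by rintro _ ⟨i, rfl⟩; exact hD i x⟩
    have h2 : BddAbove (Set.range fun i => p i y) := ⟨D * ‖y‖, by rintro _ ⟨i, rfl⟩; exact hD i y⟩
    exact (hadd i x y).trans (add_le_add (le_ciSup h1 i) (le_ciSup h2 i))
  smul c x := by
    rw [Real.mul_iSup_of_nonneg (norm_nonneg c)]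
    exact iSup_congr fun i => hsmul i c x
  C := C
  le x := hC x _ fun i => le_ciSup (f := fun i => p i x)
    ⟨D * ‖x‖, by rintro _ ⟨i, rfl⟩; exact hD i x⟩ i
  D := D
  ge x := ciSup_le fun i => hD i x

section

variable {ι : Type*} [Nonempty ι] (p : ι → V → ℝ)
    (hadd : ∀ i x y, p i (x + y) ≤ p i x + p i y)
    (hsmul : ∀ i (c : 𝕜) x, p i (c • x) = ‖c‖ * p i x)
    (D : ℝ) (hD : ∀ i x, p i x ≤ D * ‖x‖)
    (C : ℝ) (hC : ∀ x b, (∀ i, p i x ≤ b) → ‖x‖ ≤ C * b)

theorem le_ofSup (i : ι) (x : V) : p i x ≤ (ofSup p hadd hsmul D hD C hC).N x :=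
  le_ciSup (f := fun i => p i x) ⟨D * ‖x‖, by rintro _ ⟨i, rfl⟩; exact hD i x⟩ i

theorem ofSup_le {x : V} {b : ℝ} (h : ∀ i, p i x ≤ b) :
    (ofSup p hadd hsmul D hD C hC).N x ≤ b :=
  ciSup_le h

end

end Q97.EqNorm
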