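import Mathlib

set_option autoImplicit false

/-!
# Square sums of normed spaces (helper lemmas)
-/

namespace Q97

theorem L2_hasSum_norm_sq {ι : Type*} {F : ι → Type*} [∀ i, NormedAddCommGroup (F i)]
    (x : lp F 2) : HasSum (fun i => ‖x i‖ ^ 2) (‖x‖ ^ 2) := by
  have h := lp.hasSum_norm (p := 2) (by norm_num) x
  simpa using h

theorem uniformConvexSpace_of_ineq {X : Type*} [NormedAddCommGroup X] {c : ℝ} (hc : 0 < c)
    (h : ∀ x y : X, ‖x + y‖ ^ 2 + c * ‖x - y‖ ^ 2 ≤ 2 * ‖x‖ ^ 2 + 2 * ‖y‖ ^ 2) :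
    UniformConvexSpace X where
  uniform_convex := by
    intro ε hε
    refine ⟨min 1 (c * ε ^ 2 / 4), lt_min one_pos (by positivity), ?_⟩
    intro x hx y hy hxy
    have h1 := h x y
    rw [hx, hy] at h1
    have h2 : c * ε ^ 2 ≤ c * ‖x - y‖ ^ 2 :=
      mul_le_mul_of_nonneg_left (pow_le_pow_left₀ hε.le hxy 2) hc.le
    set δ : ℝ := min 1 (c * ε ^ 2 / 4) with hδ
    have hδ1 : δ ≤ 1 := min_le_left _ _
    have hδ2 : δ ≤ c * ε ^ 2 / 4 := min_le_right _ _
    apply le_of_sq_le_sq _ (by linarith)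
    nlinarith [sq_nonneg δ]

theorem not_finiteDimensional_lp {F : ℕ → Type*} [∀ i, NormedAddCommGroup (F i)]
    [∀ i, NormedSpace ℝ (F i)] (e : ∀ i, F i) (he : ∀ i, e i ≠ 0) (p : ENNReal) [Fact (1 ≤ p)] :
    ¬ FiniteDimensional ℝ (lp F p) := by
  classical
  intro hfin
  have hli : LinearIndependent ℝ (fun i : ℕ => (lp.single p i (e i) : lp F p)) := by
    rw [linearIndependent_iff']
    intro s g hg j hj
    have h1 := congrArg (fun x : lp F p => x j) hg
    have h2 : (∑ i ∈ s, g i • (lp.single p i (e i) : lp F p) : lp F p) j = g j • e j := by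
      have h3 := map_sum (lp.evalCLM ℝ F p j) (fun i => g i • (lp.single p i (e i) : lp F p)) s
      have h4 : ∀ x : lp F p, lp.evalCLM ℝ F p j x = x j := fun x => rfl
      rw [h4] at h3
      rw [h3, Finset.sum_eq_single j]
      · rw [h4]
        change g j • (lp.single p j (e j) : lp F p) j = _
        rw [lp.single_apply_self]
      · intro i _ hij
        rw [h4]
        change g i • (lp.single p i (e i) : lp F p) j = _
        rw [lp.single_apply_ne p i (e i) (Ne.symm hij), smul_zero]
      · intro h; exact absurd hj h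
    rw [h2] at h1
    have h5 : g j • e j = 0 := h1
    rcases smul_eq_zero.mp h5 with h6 | h6
    · exact h6
    · exact absurd h6 (he j)
  have hfinite := hli.finite_of_isNoetherian
  exact not_finite ℕ

end Q97
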