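import Mathlib

set_option autoImplicit false

/-!
# The super alternative Daugavet property and unconditional bases (helper results)
-/

namespace Q97.SuperADP

open Finset

theorem sum_abs_le_two {β : Type*} (G : Finset β) (a : β → ℝ) (M : ℝ)
    (h : ∀ A ⊆ G, |∑ n ∈ A, a n| ≤ M) : ∑ n ∈ G, |a n| ≤ 2 * M := by
  classical
  have h1 := h (G.filter (fun n => 0 ≤ a n)) (filter_subset _ _)
  have h2 := h (G.filter (fun n => ¬ 0 ≤ a n)) (filter_subset _ _)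
  have h3 : ∑ n ∈ G, |a n| = ∑ n ∈ G.filter (fun n => 0 ≤ a n), a n -
      ∑ n ∈ G.filter (fun n => ¬ 0 ≤ a n), a n := by
    rw [← sum_filter_add_sum_filter_not G (fun n => 0 ≤ a n) (fun n => |a n|), sub_eq_add_neg,
      ← sum_neg_distrib]
    congr 1
    · apply sum_congr rfl
      intro n hn
      exact abs_of_nonneg (mem_filter.mp hn).2
    · apply sum_congr rfl
      intro n hn
      exact abs_of_neg (not_le.mp (mem_filter.mp hn).2)
  rw [h3]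
  have h4 := le_abs_self (∑ n ∈ G.filter (fun n => 0 ≤ a n), a n)
  have h5 := neg_abs_le (∑ n ∈ G.filter (fun n => ¬ 0 ≤ a n), a n)
  linarith

theorem norm_le_re_im {𝕜 : Type*} [RCLike 𝕜] (z : 𝕜) :
    ‖z‖ ≤ |RCLike.re z| + |RCLike.im z| := by
  calc ‖z‖ = ‖((RCLike.re z : ℝ) : 𝕜) + ((RCLike.im z : ℝ) : 𝕜) * RCLike.I‖ := by
        rw [RCLike.re_add_im]
    _ ≤ ‖((RCLike.re z : ℝ) : 𝕜)‖ + ‖((RCLike.im z : ℝ) : 𝕜) * RCLike.I‖ := norm_add_le _ _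
    _ ≤ |RCLike.re z| + |RCLike.im z| := by
        rw [norm_mul, RCLike.norm_ofReal, RCLike.norm_ofReal]
        have h1 : ‖(RCLike.I : 𝕜)‖ ≤ 1 := by
          rcases RCLike.I_eq_zero_or_im_I_eq_one (K := 𝕜) with h | h
          · rw [h]; simp
          · exact (RCLike.norm_I_of_ne_zero (by intro h0; rw [h0] at h; simp at h)).le
        have h2 : |RCLike.im z| * ‖(RCLike.I : 𝕜)‖ ≤ |RCLike.im z| * 1 :=
          mul_le_mul_of_nonneg_left h1 (abs_nonneg _)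
        linarith

theorem sum_norm_le_four {𝕜 : Type*} [RCLike 𝕜] {β : Type*} (G : Finset β) (a : β → 𝕜) (M : ℝ)
    (h : ∀ A ⊆ G, ‖∑ n ∈ A, a n‖ ≤ M) : ∑ n ∈ G, ‖a n‖ ≤ 4 * M := by
  have hre : ∑ n ∈ G, |RCLike.re (a n)| ≤ 2 * M := by
    apply sum_abs_le_two
    intro A hA
    rw [← map_sum]
    exact (RCLike.abs_re_le_norm _).trans (h A hA)
  have him : ∑ n ∈ G, |RCLike.im (a n)| ≤ 2 * M := by
    apply sum_abs_le_two
    intro A hA
    rw [← map_sum]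
    exact (RCLike.abs_im_le_norm _).trans (h A hA)
  calc ∑ n ∈ G, ‖a n‖ ≤ ∑ n ∈ G, (|RCLike.re (a n)| + |RCLike.im (a n)|) := by
        apply sum_le_sum
        intro n _
        exact norm_le_re_im _
    _ = ∑ n ∈ G, |RCLike.re (a n)| + ∑ n ∈ G, |RCLike.im (a n)| := sum_add_distrib
    _ ≤ 4 * M := by linarith

variable {𝕜 : Type*} [RCLike 𝕜] {Z : Type*} [NormedAddCommGroup Z] [NormedSpace 𝕜 Z]
  {β : Type*}

/-- The sum of the moduli of the coordinates of `w`, weighted with `g`, over a finite set. -/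
noncomputable def V (b : UnconditionalSchauderBasis β 𝕜 Z) (G : Finset β) (g : Z →L[𝕜] 𝕜)
    (w : Z) : ℝ :=
  ∑ n ∈ G, ‖g (b.coord n w • b n)‖

section

variable (b : UnconditionalSchauderBasis β 𝕜 Z)

theorem V_nonneg (G : Finset β) (g : Z →L[𝕜] 𝕜) (w : Z) : 0 ≤ V b G g w :=
  sum_nonneg fun _ _ => norm_nonneg _

theorem V_add_le (G : Finset β) (g : Z →L[𝕜] 𝕜) (w w' : Z) :
    V b G g (w + w') ≤ V b G g w + V b G g w' := by
  unfold V
  rw [← sum_add_distrib]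
  apply sum_le_sum
  intro n _
  rw [map_add, add_smul, map_add]
  exact norm_add_le _ _

theorem V_smul (G : Finset β) (g : Z →L[𝕜] 𝕜) (t : 𝕜) (w : Z) :
    V b G g (t • w) = ‖t‖ * V b G g w := by
  unfold V
  rw [mul_sum]
  apply sum_congr rfl
  intro n _
  rw [(b.coord n).map_smul, smul_assoc, g.map_smul, norm_smul]

theorem V_union [DecidableEq β] {G G' : Finset β} (h : Disjoint G G') (g : Z →L[𝕜] 𝕜) (w : Z) :
    V b (G ∪ G') g w = V b G g w + V b G' g w :=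
  sum_union h

theorem V_mono {G G' : Finset β} (h : G ⊆ G') (g : Z →L[𝕜] 𝕜) (w : Z) :
    V b G g w ≤ V b G' g w :=
  sum_le_sum_of_subset_of_nonneg h fun _ _ _ => norm_nonneg _

theorem norm_le_V (G : Finset β) (g : Z →L[𝕜] 𝕜) (w : Z) : ‖g (b.proj G w)‖ ≤ V b G g w := by
  rw [GeneralSchauderBasis.proj_apply, map_sum]
  exact norm_sum_le _ _

theorem proj_proj_of_subset {A B : Finset β} (h : A ⊆ B) (w : Z) :
    b.proj A (b.proj B w) = b.proj A w := by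
  classical
  rw [GeneralSchauderBasis.proj_comp, inter_eq_left.mpr h]

theorem proj_proj_of_superset {A B : Finset β} (h : A ⊆ B) (w : Z) :
    b.proj B (b.proj A w) = b.proj A w := by
  classical
  rw [GeneralSchauderBasis.proj_comp, inter_eq_right.mpr h]

theorem proj_proj_of_disjoint {A B : Finset β} (h : Disjoint A B) (w : Z) :
    b.proj A (b.proj B w) = 0 := by
  classical
  rw [GeneralSchauderBasis.proj_comp, disjoint_iff_inter_eq_empty.mp h,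
    GeneralSchauderBasis.proj_empty]
  simp

variable {b} {C : ℝ} (hC : ∀ A : Finset β, ‖b.proj A‖ ≤ C)
include hC

theorem V_le (G : Finset β) (g : Z →L[𝕜] 𝕜) (w : Z) :
    V b G g w ≤ 4 * (C * ‖g‖ * ‖b.proj G w‖) := by
  apply sum_norm_le_four
  intro A hA
  rw [← map_sum, ← GeneralSchauderBasis.proj_apply, ← proj_proj_of_subset b hA]
  calc ‖g (b.proj A (b.proj G w))‖ ≤ ‖g‖ * ‖b.proj A (b.proj G w)‖ := g.le_opNorm _
    _ ≤ ‖g‖ * (C * ‖b.proj G w‖) := by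
        apply mul_le_mul_of_nonneg_left _ (norm_nonneg _)
        exact ((b.proj A).le_opNorm _).trans (mul_le_mul_of_nonneg_right (hC A) (norm_nonneg _))
    _ = C * ‖g‖ * ‖b.proj G w‖ := by ring

theorem norm_proj_le (A : Finset β) (w : Z) : ‖b.proj A w‖ ≤ C * ‖w‖ :=
  ((b.proj A).le_opNorm _).trans (mul_le_mul_of_nonneg_right (hC A) (norm_nonneg _))

theorem norm_proj_le_of_subset {A B : Finset β} (h : A ⊆ B) (w : Z) :
    ‖b.proj A w‖ ≤ C * ‖b.proj B w‖ := by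
  rw [← proj_proj_of_subset b h]
  exact norm_proj_le hC A _

theorem norm_proj_le_of_disjoint {A B : Finset β} (h : Disjoint A B) (w : Z) :
    ‖b.proj A w‖ ≤ C * ‖w - b.proj B w‖ := by
  have : b.proj A w = b.proj A (w - b.proj B w) := by
    rw [map_sub, proj_proj_of_disjoint b h, sub_zero]
  rw [this]
  exact norm_proj_le hC A _

theorem norm_sub_proj_le {A B : Finset β} (h : A ⊆ B) (w : Z) :
    ‖w - b.proj B w‖ ≤ (1 + C) * ‖w - b.proj A w‖ := by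
  have : w - b.proj B w = (w - b.proj A w) - b.proj B (w - b.proj A w) := by
    rw [map_sub, proj_proj_of_superset b h]
    abel
  rw [this]
  calc ‖(w - b.proj A w) - b.proj B (w - b.proj A w)‖
      ≤ ‖w - b.proj A w‖ + ‖b.proj B (w - b.proj A w)‖ := norm_sub_le _ _
    _ ≤ ‖w - b.proj A w‖ + C * ‖w - b.proj A w‖ := by
        have := norm_proj_le hC B (w - b.proj A w)
        linarith
    _ = (1 + C) * ‖w - b.proj A w‖ := by ring

/-- Lipschitz estimate for `V` with respect to the seminorm `‖P_G ·‖`. -/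
theorem V_le_V_add {D : ℝ} (G : Finset β) (g : Z →L[𝕜] 𝕜) (hg : ‖g‖ ≤ D) (hC0 : 0 ≤ C)
    (w w' : Z) : V b G g w ≤ V b G g w' + 4 * C * D * ‖b.proj G (w - w')‖ := by
  have h1 : V b G g w ≤ V b G g w' + V b G g (w - w') := by
    have := V_add_le b G g w' (w - w')
    rwa [add_sub_cancel] at this
  have h2 := V_le hC G g (w - w')
  have h3 : C * ‖g‖ * ‖b.proj G (w - w')‖ ≤ C * D * ‖b.proj G (w - w')‖ :=
    mul_le_mul_of_nonneg_right (mul_le_mul_of_nonneg_left hg hC0) (norm_nonneg _)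
  linarith

end

variable {X : Type*} [NormedAddCommGroup X] [NormedSpace 𝕜 X]

/-- The super alternative Daugavet property in terms of basic weak neighbourhoods. -/
def BasicADP (𝕜 : Type*) [RCLike 𝕜] (X : Type*) [NormedAddCommGroup X] [NormedSpace 𝕜 X] : Prop :=
  ∀ x : X, ‖x‖ = 1 → ∀ (I : Finset (X →L[𝕜] 𝕜)) (u : X) (δ κ : ℝ), ‖u‖ ≤ 1 → 0 < δ → 0 < κ →
    ∃ (y : X) (θ : 𝕜), ‖y‖ ≤ 1 ∧ (∀ ψ ∈ I, ‖ψ (y - u)‖ < δ) ∧ ‖θ‖ = 1 ∧ 2 - κ < ‖x + θ • y‖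

theorem norm_sub_one_le {z : 𝕜} {η : ℝ} (hη : 0 < η) (hz : ‖z‖ ≤ 1)
    (hre : 1 - η ^ 2 / 2 < RCLike.re z) : ‖z - 1‖ ≤ η := by
  have h1 : ‖z - 1‖ ^ 2 ≤ η ^ 2 := by
    have h2 : ‖z - 1‖ ^ 2 = ‖z‖ ^ 2 - 2 * RCLike.re z + 1 := by
      rw [← RCLike.normSq_eq_def', ← RCLike.normSq_eq_def', RCLike.normSq_apply,
        RCLike.normSq_apply]
      simp only [map_sub, RCLike.one_re, RCLike.one_im]
      ring
    rw [h2]
    have h3 : ‖z‖ ^ 2 ≤ 1 := by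
      have := norm_nonneg z
      nlinarith
    linarith
  exact (pow_le_pow_iff_left₀ (norm_nonneg _) hη.le two_ne_zero).mp h1

theorem one_step (hADP : BasicADP 𝕜 X) (J : X →L[𝕜] Z) (b : UnconditionalSchauderBasis β 𝕜 Z)
    (F : Finset β) (x u : X) (hx : ‖x‖ = 1) (hu : ‖u‖ ≤ 1) (ε η : ℝ) (hε : 0 < ε) (hη : 0 < η) :
    ∃ (y : X) (θ : 𝕜) (x' : X) (ε' : ℝ), ‖y‖ ≤ 1 ∧ ‖θ‖ = 1 ∧ ‖x'‖ = 1 ∧ 0 < ε' ∧
      ‖b.proj F (J y - J u)‖ ≤ η ∧ ∀ f : X →L[𝕜] 𝕜, ‖f‖ ≤ 1 → 1 - ε' < RCLike.re (f x') →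
        1 - ε < RCLike.re (f x) ∧ ‖θ * f y - 1‖ ≤ η := by
  classical
  set m : ℝ := min (min ε (η ^ 2 / 2)) 1 with hm
  have hmpos : 0 < m := by
    rw [hm]
    exact lt_min (lt_min hε (by positivity)) one_pos
  have hm1 : m ≤ ε := (min_le_left _ _).trans (min_le_left _ _)
  have hm2 : m ≤ η ^ 2 / 2 := (min_le_left _ _).trans (min_le_right _ _)
  have hm3 : m ≤ 1 := min_le_right _ _
  set S : ℝ := ∑ n ∈ F, ‖b.basis n‖ with hS
  have hS0 : 0 ≤ S := sum_nonneg fun _ _ => norm_nonneg _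
  obtain ⟨y, θ, hy, hyI, hθ, hxy⟩ := hADP x hx (F.image fun n => (b.coord n).comp J) u
    (η / (S + 1)) (m / 2) hu (by positivity) (by positivity)
  have hNle : ‖x + θ • y‖ ≤ 2 := by
    calc ‖x + θ • y‖ ≤ ‖x‖ + ‖θ • y‖ := norm_add_le _ _
      _ ≤ 2 := by rw [norm_smul, hθ, hx]; linarith
  have hNpos : 0 < ‖x + θ • y‖ := by linarith
  refine ⟨y, θ, ((‖x + θ • y‖⁻¹ : ℝ) : 𝕜) • (x + θ • y), m / 4, hy, hθ, ?_, by positivity, ?_, ?_⟩
  · rw [norm_smul, RCLike.norm_ofReal, abs_of_pos (inv_pos.mpr hNpos),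
      inv_mul_cancel₀ hNpos.ne']
  · rw [GeneralSchauderBasis.proj_apply]
    calc ‖∑ n ∈ F, b.coord n (J y - J u) • b.basis n‖
        ≤ ∑ n ∈ F, ‖b.coord n (J y - J u) • b.basis n‖ := norm_sum_le _ _
      _ ≤ ∑ n ∈ F, (η / (S + 1)) * ‖b.basis n‖ := by
          apply sum_le_sum
          intro n hn
          rw [norm_smul]
          apply mul_le_mul_of_nonneg_right _ (norm_nonneg _)
          have := hyI ((b.coord n).comp J) (mem_image_of_mem _ hn)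
          rw [ContinuousLinearMap.comp_apply, map_sub] at this
          exact this.le
      _ = (η / (S + 1)) * S := by rw [← mul_sum]
      _ ≤ η := by
          rw [div_mul_eq_mul_div, div_le_iff₀ (by positivity)]
          nlinarith
  · intro f hf hfx'
    have hfle : ∀ w : X, ‖w‖ ≤ 1 → ‖f w‖ ≤ 1 := by
      intro w hw
      calc ‖f w‖ ≤ ‖f‖ * ‖w‖ := f.le_opNorm w
        _ ≤ 1 := by have := norm_nonneg w; nlinarith [norm_nonneg f]
    have hθy : ‖θ * f y‖ ≤ 1 := by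
      rw [norm_mul, hθ, one_mul]
      exact hfle y hy
    have h1 : RCLike.re (f x) ≤ 1 := (RCLike.re_le_norm _).trans (hfle x hx.le)
    have h2 : RCLike.re (θ * f y) ≤ 1 := (RCLike.re_le_norm _).trans hθy
    have h3 : RCLike.re (f (((‖x + θ • y‖⁻¹ : ℝ) : 𝕜) • (x + θ • y))) =
        ‖x + θ • y‖⁻¹ * (RCLike.re (f x) + RCLike.re (θ * f y)) := by
      rw [f.map_smul, smul_eq_mul, RCLike.re_ofReal_mul, f.map_add, f.map_smul, smul_eq_mul,
        AddMonoidHom.map_add]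
    rw [h3, inv_mul_eq_div, lt_div_iff₀ hNpos] at hfx'
    have h4 : 2 - m < RCLike.re (f x) + RCLike.re (θ * f y) := by nlinarith
    refine ⟨by linarith, ?_⟩
    apply norm_sub_one_le hη hθy
    linarith

/-- The induction statement. -/
def Claim (b : UnconditionalSchauderBasis β 𝕜 Z) (J : X →L[𝕜] Z) (D ρ : ℝ) : Prop :=
  ∀ (x₀ : X) (ε₀ : ℝ) (F₀ : Finset β) (δ : ℝ), ‖x₀‖ = 1 → 0 < ε₀ → 0 < δ →
    ∃ (x : X) (ε : ℝ) (G : Finset β) (u : X), ‖x‖ = 1 ∧ 0 < ε ∧ Disjoint G F₀ ∧ ‖u‖ ≤ 1 ∧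
      ‖J u - b.proj G (J u)‖ ≤ δ ∧
      ∀ g : Z →L[𝕜] 𝕜, ‖g‖ ≤ D → ‖g.comp J‖ ≤ 1 → 1 - ε < RCLike.re (g (J x)) →
        1 - ε₀ < RCLike.re (g (J x₀)) ∧ ‖g (J u)‖ ≤ δ ∧ ρ ≤ V b G g (J u)

theorem claim_zero (b : UnconditionalSchauderBasis β 𝕜 Z) (J : X →L[𝕜] Z) (D : ℝ) :
    Claim b J D 0 := by
  intro x₀ ε₀ F₀ δ hx₀ hε₀ hδ
  refine ⟨x₀, ε₀, ∅, 0, hx₀, hε₀, disjoint_empty_left _, by simp, by simpa using hδ.le, ?_⟩
  intro g _ _ hg
  exact ⟨hg, by simpa using hδ.le, V_nonneg _ _ _ _⟩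

/-- A finite set on which `w` is almost supported. -/
theorem exists_finset (b : UnconditionalSchauderBasis β 𝕜 Z) (w : Z) (F : Finset β) (η : ℝ)
    (hη : 0 < η) : ∃ H : Finset β, F ⊆ H ∧ ‖w - b.proj H w‖ ≤ η := by
  classical
  have h := b.tendsto_proj w
  rw [SummationFilter.unconditional_filter] at h
  have h2 := (Metric.tendsto_atTop.mp h) η hη
  obtain ⟨N, hN⟩ := h2
  refine ⟨N ∪ F, subset_union_right, ?_⟩
  have := hN (N ∪ F) subset_union_left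
  rw [dist_eq_norm, norm_sub_rev] at this
  exact this.le

theorem step (hADP : BasicADP 𝕜 X) (J : X →L[𝕜] Z) (b : UnconditionalSchauderBasis β 𝕜 Z)
    {C D : ℝ} (hC : ∀ A : Finset β, ‖b.proj A‖ ≤ C) (hC1 : 1 ≤ C) (hD1 : 1 ≤ D) {ρ : ℝ}
    (hρ : Claim b J D ρ) : Claim b J D (ρ + 1 / 2) := by
  classical
  intro x₀ ε₀ F₀ δ hx₀ hε₀ hδ
  -- the error parameter
  set τ : ℝ := min (1 / 2) δ / (32 * C ^ 2 * D) with hτ
  have hCD : 0 < 32 * C ^ 2 * D := by positivity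
  have hτpos : 0 < τ := div_pos (lt_min (by norm_num) hδ) hCD
  have hτeq : 32 * C ^ 2 * D * τ = min (1 / 2) δ := by
    rw [hτ]; field_simp
  have hτ1 : 32 * C ^ 2 * D * τ ≤ 1 / 2 := by rw [hτeq]; exact min_le_left _ _
  have hτ2 : 32 * C ^ 2 * D * τ ≤ δ := by rw [hτeq]; exact min_le_right _ _
  have hCτ : τ ≤ C * τ := le_mul_of_one_le_left hτpos.le hC1
  have hCD1 : 1 ≤ C * D := one_le_mul_of_one_le_of_one_le hC1 hD1
  have hCτ2 : C * τ ≤ C ^ 2 * D * τ := by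
    have h1 : C * τ ≤ (C * D) * (C * τ) :=
      le_mul_of_one_le_left (mul_nonneg (by linarith) hτpos.le) hCD1
    have h2 : (C * D) * (C * τ) = C ^ 2 * D * τ := by ring
    linarith
  obtain ⟨x₁, ε₁, G₁, u₁, hx₁, hε₁, hG₁, hu₁, hs₁, H₁⟩ := hρ x₀ ε₀ F₀ τ hx₀ hε₀ hτpos
  obtain ⟨x₂, ε₂, G₂, u₂, hx₂, hε₂, hG₂, hu₂, hs₂, H₂⟩ := hρ x₁ ε₁ (F₀ ∪ G₁) τ hx₁ hε₁ hτpos
  obtain ⟨y₁, θ₁, x₃, ε₃, hy₁, hθ₁, hx₃, hε₃, hP₁, H₃⟩ :=
    one_step hADP J b (F₀ ∪ G₁ ∪ G₂) x₂ u₁ hx₂ hu₁ ε₂ τ hε₂ hτpos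
  obtain ⟨A₁, hA₁, ht₁⟩ := exists_finset b (J y₁) (F₀ ∪ G₁ ∪ G₂) τ hτpos
  obtain ⟨y₂, θ₂, x₄, ε₄, hy₂, hθ₂, hx₄, hε₄, hP₂, H₄⟩ :=
    one_step hADP J b A₁ x₃ u₂ hx₃ hu₂ ε₃ τ hε₃ hτpos
  obtain ⟨A₂, hA₂, ht₂⟩ := exists_finset b (J y₂) A₁ τ hτpos
  set F₃ : Finset β := F₀ ∪ G₁ ∪ G₂ with hF₃
  -- inclusions between the finite sets
  have i0 : F₀ ⊆ F₃ := fun n hn => by simp [hF₃, hn]
  have i1 : G₁ ⊆ F₃ := fun n hn => by simp [hF₃, hn]
  have i2 : G₂ ⊆ F₃ := fun n hn => by simp [hF₃, hn]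
  have dG : Disjoint G₂ G₁ := by
    rw [disjoint_union_right] at hG₂; exact hG₂.2
  have dG0 : Disjoint G₂ F₀ := by
    rw [disjoint_union_right] at hG₂; exact hG₂.1
  have hC0 : 0 ≤ C := by linarith
  set w₁ : Z := J y₁ with hw₁
  set w₂ : Z := J y₂ with hw₂
  set a₁ : Z := J u₁ with ha₁
  set a₂ : Z := J u₂ with ha₂
  set v : X := ((1 / 2 : ℝ) : 𝕜) • (θ₁ • y₁) - ((1 / 2 : ℝ) : 𝕜) • (θ₂ • y₂) with hv
  have hJv : J v = (((1 / 2 : ℝ) : 𝕜) * θ₁) • w₁ - (((1 / 2 : ℝ) : 𝕜) * θ₂) • w₂ := by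
    rw [hv, map_sub, map_smul, map_smul, map_smul, map_smul, smul_smul, smul_smul]
  have hhalf : ‖((1 / 2 : ℝ) : 𝕜)‖ = 1 / 2 := by
    rw [RCLike.norm_ofReal]; norm_num
  have hc₁ : ‖((1 / 2 : ℝ) : 𝕜) * θ₁‖ = 1 / 2 := by rw [norm_mul, hhalf, hθ₁, mul_one]
  have hc₂ : ‖((1 / 2 : ℝ) : 𝕜) * θ₂‖ = 1 / 2 := by rw [norm_mul, hhalf, hθ₂, mul_one]
  have hvn : ‖v‖ ≤ 1 := by
    calc ‖v‖ ≤ ‖((1 / 2 : ℝ) : 𝕜) • (θ₁ • y₁)‖ + ‖((1 / 2 : ℝ) : 𝕜) • (θ₂ • y₂)‖ :=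
          norm_sub_le _ _
      _ ≤ 1 := by
          rw [norm_smul, norm_smul, norm_smul, norm_smul, hhalf, hθ₁, hθ₂]
          linarith
  -- the tail estimates
  have e1 : ‖b.proj F₀ w₁‖ ≤ 2 * C * τ := by
    have h1 : ‖b.proj F₀ (w₁ - a₁)‖ ≤ C * τ :=
      (norm_proj_le_of_subset hC i0 _).trans (mul_le_mul_of_nonneg_left hP₁ hC0)
    have h2 : ‖b.proj F₀ a₁‖ ≤ C * τ :=
      (norm_proj_le_of_disjoint hC hG₁.symm _).trans (mul_le_mul_of_nonneg_left hs₁ hC0)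
    calc ‖b.proj F₀ w₁‖ = ‖b.proj F₀ (w₁ - a₁) + b.proj F₀ a₁‖ := by
          rw [← map_add, sub_add_cancel]
      _ ≤ _ := norm_add_le _ _
      _ ≤ 2 * C * τ := by linarith
  have e2 : ‖b.proj F₀ w₂‖ ≤ 2 * C * τ := by
    have h1 : ‖b.proj F₀ (w₂ - a₂)‖ ≤ C * τ :=
      (norm_proj_le_of_subset hC (i0.trans hA₁) _).trans (mul_le_mul_of_nonneg_left hP₂ hC0)
    have h2 : ‖b.proj F₀ a₂‖ ≤ C * τ :=
      (norm_proj_le_of_disjoint hC dG0.symm _).trans (mul_le_mul_of_nonneg_left hs₂ hC0)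
    calc ‖b.proj F₀ w₂‖ = ‖b.proj F₀ (w₂ - a₂) + b.proj F₀ a₂‖ := by
          rw [← map_add, sub_add_cancel]
      _ ≤ _ := norm_add_le _ _
      _ ≤ 2 * C * τ := by linarith
  have e3 : ‖w₁ - b.proj A₂ w₁‖ ≤ (1 + C) * τ :=
    (norm_sub_proj_le hC hA₂ _).trans (mul_le_mul_of_nonneg_left ht₁ (by linarith))
  have hF0A2 : F₀ ⊆ A₂ := (i0.trans hA₁).trans hA₂
  have hproj : ∀ w : Z, b.proj (A₂ \ F₀) w = b.proj A₂ w - b.proj F₀ w := by
    intro w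
    rw [GeneralSchauderBasis.proj_apply, GeneralSchauderBasis.proj_apply,
      GeneralSchauderBasis.proj_apply, ← sum_sdiff hF0A2]
    simp
  have tail : ‖J v - b.proj (A₂ \ F₀) (J v)‖ ≤ 4 * C * τ := by
    have h1 : J v - b.proj (A₂ \ F₀) (J v) =
        (((1 / 2 : ℝ) : 𝕜) * θ₁) • ((w₁ - b.proj A₂ w₁) + b.proj F₀ w₁) -
        (((1 / 2 : ℝ) : 𝕜) * θ₂) • ((w₂ - b.proj A₂ w₂) + b.proj F₀ w₂) := by
      rw [hproj, hJv, map_sub, map_sub, map_smul, map_smul, map_smul, map_smul]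
      module
    rw [h1]
    have h2 : ‖(w₁ - b.proj A₂ w₁) + b.proj F₀ w₁‖ ≤ (1 + C) * τ + 2 * C * τ :=
      (norm_add_le _ _).trans (add_le_add e3 e1)
    have h3 : ‖(w₂ - b.proj A₂ w₂) + b.proj F₀ w₂‖ ≤ τ + 2 * C * τ :=
      (norm_add_le _ _).trans (add_le_add ht₂ e2)
    calc _ ≤ ‖(((1 / 2 : ℝ) : 𝕜) * θ₁) • ((w₁ - b.proj A₂ w₁) + b.proj F₀ w₁)‖ +
          ‖(((1 / 2 : ℝ) : 𝕜) * θ₂) • ((w₂ - b.proj A₂ w₂) + b.proj F₀ w₂)‖ := norm_sub_le _ _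
      _ ≤ 4 * C * τ := by
          rw [norm_smul, norm_smul, hc₁, hc₂]
          linarith
  refine ⟨x₄, ε₄, A₂ \ F₀, v, hx₄, hε₄, sdiff_disjoint, hvn, ?_, ?_⟩
  · refine tail.trans ?_
    linarith
  intro g hgD hgJ hg4
  have F4 := H₄ (g.comp J) hgJ hg4
  simp only [ContinuousLinearMap.comp_apply] at F4
  have F3 := H₃ (g.comp J) hgJ F4.1
  simp only [ContinuousLinearMap.comp_apply] at F3
  have F2 := H₂ g hgD hgJ F3.1
  have F1 := H₁ g hgD hgJ F2.1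
  have hgw : ∀ w : Z, ‖g w‖ ≤ D * ‖w‖ := fun w =>
    (g.le_opNorm w).trans (mul_le_mul_of_nonneg_right hgD (norm_nonneg _))
  refine ⟨F1.1, ?_, ?_⟩
  · -- the value of `g` at `v` is small
    have h1 : g (J v) = ((1 / 2 : ℝ) : 𝕜) * ((θ₁ * g w₁ - 1) - (θ₂ * g w₂ - 1)) := by
      rw [hJv, map_sub, map_smul, map_smul, smul_eq_mul, smul_eq_mul]
      ring
    rw [h1, norm_mul, hhalf]
    have h2 : ‖(θ₁ * g w₁ - 1) - (θ₂ * g w₂ - 1)‖ ≤ τ + τ :=
      (norm_sub_le _ _).trans (add_le_add F3.2 F4.2)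
    linarith
  · -- the lower bound
    set K : ℝ := 4 * C * D with hK
    have hK0 : 0 ≤ K := by positivity
    have hKD : ∀ w : Z, ‖g w‖ ≤ K * ‖w‖ := by
      intro w
      refine (hgw w).trans (mul_le_mul_of_nonneg_right ?_ (norm_nonneg _))
      have h1 : D ≤ C * D := le_mul_of_one_le_left (by linarith) hC1
      have h2 : K = 4 * (C * D) := by rw [hK]; ring
      linarith
    have Lip : ∀ (G : Finset β) (w w' : Z) (r : ℝ), ‖b.proj G (w - w')‖ ≤ r →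
        V b G g w ≤ V b G g w' + K * r := by
      intro G w w' r hr
      have h1 := V_le_V_add hC G g hgD hC0 w w'
      have h2 : K * ‖b.proj G (w - w')‖ ≤ K * r := mul_le_mul_of_nonneg_left hr hK0
      linarith
    have Lip0 : ∀ (G : Finset β) (w : Z) (r : ℝ), ‖b.proj G w‖ ≤ r → V b G g w ≤ K * r := by
      intro G w r hr
      have h1 := Lip G w 0 r (by simpa using hr)
      have h2 : V b G g 0 = 0 := by simp [V]
      linarith
    -- reverse triangle inequality for the combination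
    have comb₁ : ∀ G : Finset β, 1 / 2 * V b G g w₁ - 1 / 2 * V b G g w₂ ≤ V b G g (J v) := by
      intro G
      have h1 : V b G g ((((1 / 2 : ℝ) : 𝕜) * θ₁) • w₁) ≤
          V b G g (J v) + V b G g ((((1 / 2 : ℝ) : 𝕜) * θ₂) • w₂) := by
        have := V_add_le b G g (J v) ((((1 / 2 : ℝ) : 𝕜) * θ₂) • w₂)
        rwa [hJv, sub_add_cancel, ← hJv] at this
      rw [V_smul, V_smul, hc₁, hc₂] at h1
      linarith
    have comb₂ : ∀ G : Finset β, 1 / 2 * V b G g w₂ - 1 / 2 * V b G g w₁ ≤ V b G g (J v) := by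
      intro G
      have h1 : V b G g ((-(((1 / 2 : ℝ) : 𝕜) * θ₂)) • w₂) ≤
          V b G g (J v) + V b G g ((-(((1 / 2 : ℝ) : 𝕜) * θ₁)) • w₁) := by
        have := V_add_le b G g (J v) ((-(((1 / 2 : ℝ) : 𝕜) * θ₁)) • w₁)
        have h2 : J v + (-(((1 / 2 : ℝ) : 𝕜) * θ₁)) • w₁ = (-(((1 / 2 : ℝ) : 𝕜) * θ₂)) • w₂ := by
          rw [hJv]; module
        rwa [h2] at this
      rw [V_smul, V_smul, norm_neg, norm_neg, hc₁, hc₂] at h1
      linarith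
    -- the four blocks
    have n1 : ρ ≤ V b G₁ g w₁ + K * (C * τ) := by
      have h1 : V b G₁ g a₁ ≤ V b G₁ g w₁ + K * (C * τ) := by
        apply Lip
        have h2 : a₁ - w₁ = -(w₁ - a₁) := by abel
        rw [h2, map_neg, norm_neg]
        exact (norm_proj_le_of_subset hC i1 _).trans (mul_le_mul_of_nonneg_left hP₁ hC0)
      linarith [F1.2.2]
    have n2 : V b G₁ g w₂ ≤ K * (C * τ) + K * (C * τ) := by
      have h1 : V b G₁ g w₂ ≤ V b G₁ g a₂ + K * (C * τ) := by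
        apply Lip
        exact (norm_proj_le_of_subset hC (i1.trans hA₁) _).trans
          (mul_le_mul_of_nonneg_left hP₂ hC0)
      have h2 : V b G₁ g a₂ ≤ K * (C * τ) := by
        apply Lip0
        exact (norm_proj_le_of_disjoint hC dG.symm _).trans (mul_le_mul_of_nonneg_left hs₂ hC0)
      linarith
    have n3 : ρ ≤ V b G₂ g w₂ + K * (C * τ) := by
      have h1 : V b G₂ g a₂ ≤ V b G₂ g w₂ + K * (C * τ) := by
        apply Lip
        have h2 : a₂ - w₂ = -(w₂ - a₂) := by abel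
        rw [h2, map_neg, norm_neg]
        exact (norm_proj_le_of_subset hC (i2.trans hA₁) _).trans
          (mul_le_mul_of_nonneg_left hP₂ hC0)
      linarith [F2.2.2]
    have n4 : V b G₂ g w₁ ≤ K * (C * τ) + K * (C * τ) := by
      have h1 : V b G₂ g w₁ ≤ V b G₂ g a₁ + K * (C * τ) := by
        apply Lip
        exact (norm_proj_le_of_subset hC i2 _).trans (mul_le_mul_of_nonneg_left hP₁ hC0)
      have h2 : V b G₂ g a₁ ≤ K * (C * τ) := by
        apply Lip0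
        exact (norm_proj_le_of_disjoint hC dG _).trans (mul_le_mul_of_nonneg_left hs₁ hC0)
      linarith
    have hsplit₁ : ∀ w : Z, b.proj (A₁ \ F₃) w = b.proj A₁ w - b.proj F₃ w := by
      intro w
      rw [GeneralSchauderBasis.proj_apply, GeneralSchauderBasis.proj_apply,
        GeneralSchauderBasis.proj_apply, ← sum_sdiff hA₁]
      simp
    have hsplit₂ : ∀ w : Z, b.proj (A₂ \ A₁) w = b.proj A₂ w - b.proj A₁ w := by
      intro w
      rw [GeneralSchauderBasis.proj_apply, GeneralSchauderBasis.proj_apply,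
        GeneralSchauderBasis.proj_apply, ← sum_sdiff hA₂]
      simp
    have g1 : 1 - τ ≤ ‖g w₁‖ := by
      have h1 : ‖θ₁ * g w₁‖ = ‖g w₁‖ := by rw [norm_mul, hθ₁, one_mul]
      have h2 : ‖(1 : 𝕜)‖ ≤ ‖θ₁ * g w₁‖ + ‖1 - θ₁ * g w₁‖ := by
        have := norm_add_le (θ₁ * g w₁) (1 - θ₁ * g w₁)
        rwa [add_sub_cancel] at this
      rw [norm_one, norm_sub_rev, h1] at h2
      linarith [F3.2]
    have g2 : 1 - τ ≤ ‖g w₂‖ := by
      have h1 : ‖θ₂ * g w₂‖ = ‖g w₂‖ := by rw [norm_mul, hθ₂, one_mul]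
      have h2 : ‖(1 : 𝕜)‖ ≤ ‖θ₂ * g w₂‖ + ‖1 - θ₂ * g w₂‖ := by
        have := norm_add_le (θ₂ * g w₂) (1 - θ₂ * g w₂)
        rwa [add_sub_cancel] at this
      rw [norm_one, norm_sub_rev, h1] at h2
      linarith [F4.2]
    have n5 : 1 - 2 * τ - K * τ ≤ V b (A₁ \ F₃) g w₁ := by
      refine le_trans ?_ (norm_le_V b _ g _)
      have h1 : w₁ = b.proj (A₁ \ F₃) w₁ + (a₁ + ((w₁ - b.proj A₁ w₁) - (a₁ - b.proj F₃ a₁) +
          b.proj F₃ (w₁ - a₁))) := by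
        rw [hsplit₁, map_sub]; abel
      have h2 : ‖(w₁ - b.proj A₁ w₁) - (a₁ - b.proj F₃ a₁) + b.proj F₃ (w₁ - a₁)‖ ≤ 4 * C * τ := by
        have h3 : ‖a₁ - b.proj F₃ a₁‖ ≤ (1 + C) * τ :=
          (norm_sub_proj_le hC i1 _).trans (mul_le_mul_of_nonneg_left hs₁ (by linarith))
        calc _ ≤ ‖(w₁ - b.proj A₁ w₁) - (a₁ - b.proj F₃ a₁)‖ + ‖b.proj F₃ (w₁ - a₁)‖ :=
              norm_add_le _ _
          _ ≤ (‖w₁ - b.proj A₁ w₁‖ + ‖a₁ - b.proj F₃ a₁‖) + ‖b.proj F₃ (w₁ - a₁)‖ := by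
              gcongr; exact norm_sub_le _ _
          _ ≤ (τ + (1 + C) * τ) + τ := by
              have hP₁' : ‖b.proj F₃ (w₁ - a₁)‖ ≤ τ := hP₁
              linarith
          _ ≤ 4 * C * τ := by linarith
      have h4 : ‖g w₁‖ ≤ ‖g (b.proj (A₁ \ F₃) w₁)‖ + (‖g a₁‖ + ‖g ((w₁ - b.proj A₁ w₁) -
          (a₁ - b.proj F₃ a₁) + b.proj F₃ (w₁ - a₁))‖) := by
        conv_lhs => rw [h1]
        rw [map_add, map_add]
        exact (norm_add_le _ _).trans (add_le_add le_rfl (norm_add_le _ _))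
      have h5 := hgw ((w₁ - b.proj A₁ w₁) - (a₁ - b.proj F₃ a₁) + b.proj F₃ (w₁ - a₁))
      have h6 : D * ‖(w₁ - b.proj A₁ w₁) - (a₁ - b.proj F₃ a₁) + b.proj F₃ (w₁ - a₁)‖ ≤
          D * (4 * C * τ) := mul_le_mul_of_nonneg_left h2 (by linarith)
      have h7 : D * (4 * C * τ) = K * τ := by rw [hK]; ring
      linarith [F1.2.1]
    have n6 : V b (A₁ \ F₃) g w₂ ≤ K * (C * τ) + K * (C * τ) := by
      have h1 : V b (A₁ \ F₃) g w₂ ≤ V b (A₁ \ F₃) g a₂ + K * (C * τ) := by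
        apply Lip
        exact (norm_proj_le_of_subset hC sdiff_subset _).trans
          (mul_le_mul_of_nonneg_left hP₂ hC0)
      have h2 : V b (A₁ \ F₃) g a₂ ≤ K * (C * τ) := by
        apply Lip0
        exact (norm_proj_le_of_disjoint hC (disjoint_of_subset_right i2 sdiff_disjoint) _).trans
          (mul_le_mul_of_nonneg_left hs₂ hC0)
      linarith
    have n7 : 1 - 2 * τ - K * τ ≤ V b (A₂ \ A₁) g w₂ := by
      refine le_trans ?_ (norm_le_V b _ g _)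
      have h1 : w₂ = b.proj (A₂ \ A₁) w₂ + (a₂ + ((w₂ - b.proj A₂ w₂) - (a₂ - b.proj A₁ a₂) +
          b.proj A₁ (w₂ - a₂))) := by
        rw [hsplit₂, map_sub]; abel
      have h2 : ‖(w₂ - b.proj A₂ w₂) - (a₂ - b.proj A₁ a₂) + b.proj A₁ (w₂ - a₂)‖ ≤ 4 * C * τ := by
        have h3 : ‖a₂ - b.proj A₁ a₂‖ ≤ (1 + C) * τ :=
          (norm_sub_proj_le hC (i2.trans hA₁) _).trans
            (mul_le_mul_of_nonneg_left hs₂ (by linarith))
        calc _ ≤ ‖(w₂ - b.proj A₂ w₂) - (a₂ - b.proj A₁ a₂)‖ + ‖b.proj A₁ (w₂ - a₂)‖ :=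
              norm_add_le _ _
          _ ≤ (‖w₂ - b.proj A₂ w₂‖ + ‖a₂ - b.proj A₁ a₂‖) + ‖b.proj A₁ (w₂ - a₂)‖ := by
              gcongr; exact norm_sub_le _ _
          _ ≤ (τ + (1 + C) * τ) + τ := by
              have hP₂' : ‖b.proj A₁ (w₂ - a₂)‖ ≤ τ := hP₂
              linarith
          _ ≤ 4 * C * τ := by linarith
      have h4 : ‖g w₂‖ ≤ ‖g (b.proj (A₂ \ A₁) w₂)‖ + (‖g a₂‖ + ‖g ((w₂ - b.proj A₂ w₂) -
          (a₂ - b.proj A₁ a₂) + b.proj A₁ (w₂ - a₂))‖) := by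
        conv_lhs => rw [h1]
        rw [map_add, map_add]
        exact (norm_add_le _ _).trans (add_le_add le_rfl (norm_add_le _ _))
      have h5 := hgw ((w₂ - b.proj A₂ w₂) - (a₂ - b.proj A₁ a₂) + b.proj A₁ (w₂ - a₂))
      have h6 : D * ‖(w₂ - b.proj A₂ w₂) - (a₂ - b.proj A₁ a₂) + b.proj A₁ (w₂ - a₂)‖ ≤
          D * (4 * C * τ) := mul_le_mul_of_nonneg_left h2 (by linarith)
      have h7 : D * (4 * C * τ) = K * τ := by rw [hK]; ring
      linarith [F2.2.1]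
    have n8 : V b (A₂ \ A₁) g w₁ ≤ K * (C * τ) := by
      apply Lip0
      exact (norm_proj_le_of_disjoint hC sdiff_disjoint _).trans
        (mul_le_mul_of_nonneg_left ht₁ hC0)
    -- sum up
    have hunion : V b G₁ g (J v) + V b G₂ g (J v) + V b (A₁ \ F₃) g (J v) +
        V b (A₂ \ A₁) g (J v) ≤ V b (A₂ \ F₀) g (J v) := by
      have d1 : Disjoint G₁ G₂ := dG.symm
      have d2 : Disjoint (G₁ ∪ G₂) (A₁ \ F₃) := by
        apply disjoint_of_subset_left _ disjoint_sdiff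
        exact union_subset i1 i2
      have d3 : Disjoint ((G₁ ∪ G₂) ∪ (A₁ \ F₃)) (A₂ \ A₁) := by
        apply disjoint_of_subset_left _ disjoint_sdiff
        exact union_subset (union_subset (i1.trans hA₁) (i2.trans hA₁)) sdiff_subset
      rw [← V_union b d1, ← V_union b d2, ← V_union b d3]
      apply V_mono
      intro n hn
      rw [mem_sdiff]
      have hd1 := disjoint_left.mp hG₁
      have hd2 := disjoint_left.mp dG0
      rcases mem_union.mp hn with hn | hn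
      · rcases mem_union.mp hn with hn | hn
        · rcases mem_union.mp hn with hn | hn
          · exact ⟨hA₂ (hA₁ (i1 hn)), hd1 hn⟩
          · exact ⟨hA₂ (hA₁ (i2 hn)), hd2 hn⟩
        · rw [mem_sdiff] at hn
          exact ⟨hA₂ hn.1, fun h => hn.2 (i0 h)⟩
      · rw [mem_sdiff] at hn
        exact ⟨hn.1, fun h => hn.2 (hA₁ (i0 h))⟩
    have c1 := comb₁ G₁
    have c2 := comb₂ G₂
    have c3 := comb₁ (A₁ \ F₃)
    have c4 := comb₂ (A₂ \ A₁)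
    have hfin : 8 * (K * (C * τ)) ≤ 1 / 2 := by
      have : 8 * (K * (C * τ)) = 32 * C ^ 2 * D * τ := by rw [hK]; ring
      rw [this]; exact hτ1
    have hKτ : K * τ ≤ K * (C * τ) := mul_le_mul_of_nonneg_left hCτ hK0
    have hτK : 4 * τ ≤ K * (C * τ) := by
      have h1 : 4 ≤ K := by
        have h2 : K = 4 * (C * D) := by rw [hK]; ring
        linarith
      exact mul_le_mul h1 hCτ hτpos.le hK0
    linarith

/-- Extension of functionals along an isomorphic embedding. -/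
theorem exists_ext (J : X →L[𝕜] Z) {c : ℝ} (hc0 : 0 ≤ c) (hc : ∀ x, ‖x‖ ≤ c * ‖J x‖)
    (f : X →L[𝕜] 𝕜) (hf : ‖f‖ ≤ 1) : ∃ g : Z →L[𝕜] 𝕜, g.comp J = f ∧ ‖g‖ ≤ c := by
  have hinj : Function.Injective (J : X →ₗ[𝕜] Z) := by
    intro x y hxy
    have h1 : J (x - y) = 0 := by
      rw [map_sub]
      exact sub_eq_zero.mpr hxy
    have h2 := hc (x - y)
    rw [h1, norm_zero, mul_zero] at h2
    exact sub_eq_zero.mp (norm_le_zero_iff.mp h2)
  let e := LinearEquiv.ofInjective (J : X →ₗ[𝕜] Z) hinj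
  let φ : (J : X →ₗ[𝕜] Z).range →ₗ[𝕜] 𝕜 := (f : X →ₗ[𝕜] 𝕜) ∘ₗ (e.symm : _ →ₗ[𝕜] X)
  have hJe : ∀ z, J (e.symm z) = z := by
    intro z
    have : e (e.symm z) = z := e.apply_symm_apply z
    have h2 := congrArg Subtype.val this
    exact h2
  have hφ : ∀ z, ‖φ z‖ ≤ c * ‖z‖ := by
    intro z
    calc ‖φ z‖ = ‖f (e.symm z)‖ := rfl
      _ ≤ ‖f‖ * ‖e.symm z‖ := f.le_opNorm _
      _ ≤ 1 * ‖e.symm z‖ := mul_le_mul_of_nonneg_right hf (norm_nonneg _)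
      _ ≤ c * ‖J (e.symm z)‖ := by rw [one_mul]; exact hc _
      _ = c * ‖z‖ := by rw [hJe]; rfl
  obtain ⟨g, hg, hgn⟩ := exists_extension_norm_eq _ (φ.mkContinuous c hφ)
  refine ⟨g, ?_, ?_⟩
  · ext x
    have h1 := hg (e x)
    have h2 : ((e x : (J : X →ₗ[𝕜] Z).range) : Z) = J x := rfl
    rw [h2] at h1
    rw [ContinuousLinearMap.comp_apply, h1, LinearMap.mkContinuous_apply]
    change f (e.symm (e x)) = f x
    rw [e.symm_apply_apply]
  · rw [hgn]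
    exact LinearMap.mkContinuous_norm_le _ hc0 _

/-- A normed space with the super alternative Daugavet property (in the basic form) does not embed
into a Banach space with an unconditional basis. -/
theorem no_embedding [CompleteSpace Z] (hADP : BasicADP 𝕜 X) (hX : ∃ x : X, ‖x‖ = 1)
    (b : UnconditionalSchauderBasis β 𝕜 Z) (J : X →L[𝕜] Z) (c : ℝ)
    (hc : ∀ x, ‖x‖ ≤ c * ‖J x‖) : False := by
  classical
  obtain ⟨C₀, hC₀⟩ := b.exists_norm_proj_le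
  set C : ℝ := max C₀ 1 with hCdef
  have hC : ∀ A : Finset β, ‖b.proj A‖ ≤ C := fun A => (hC₀ A).trans (le_max_left _ _)
  have hC1 : 1 ≤ C := le_max_right _ _
  set D : ℝ := max c 1 with hDdef
  have hD1 : 1 ≤ D := le_max_right _ _
  have hcD : ∀ x, ‖x‖ ≤ D * ‖J x‖ := fun x =>
    (hc x).trans (mul_le_mul_of_nonneg_right (le_max_left _ _) (norm_nonneg _))
  have hclaim : ∀ k : ℕ, Claim b J D (k * (1 / 2)) := by
    intro k
    induction k with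
    | zero => simpa using claim_zero b J D
    | succ k ih =>
      have := step hADP J b hC hC1 hD1 ih
      have h2 : (k : ℝ) * (1 / 2) + 1 / 2 = ((k + 1 : ℕ) : ℝ) * (1 / 2) := by push_cast; ring
      rwa [h2] at this
  obtain ⟨k, hk⟩ := exists_nat_gt (8 * (C * D * (C * ‖J‖)))
  obtain ⟨x₀, hx₀⟩ := hX
  obtain ⟨x, ε, G, u, hx, hε, -, hu, -, H⟩ := hclaim k x₀ 1 ∅ 1 hx₀ one_pos one_pos
  obtain ⟨f, hf, hfx⟩ := exists_dual_vector 𝕜 x (by rw [hx]; norm_num)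
  obtain ⟨g, hgJ, hgD⟩ := exists_ext J (by linarith) hcD f hf.le
  have hgx : RCLike.re (g (J x)) = 1 := by
    have : g (J x) = f x := by rw [← hgJ]; rfl
    rw [this, hfx, hx]; simp
  have h1 := (H g hgD (by rw [hgJ]; exact hf.le) (by rw [hgx]; linarith)).2.2
  have h2 := V_le hC G g (J u)
  have h3 : ‖b.proj G (J u)‖ ≤ C * ‖J‖ := by
    calc ‖b.proj G (J u)‖ ≤ C * ‖J u‖ := norm_proj_le hC G _
      _ ≤ C * (‖J‖ * 1) := by
          apply mul_le_mul_of_nonneg_left _ (by linarith)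
          exact (J.le_opNorm u).trans (mul_le_mul_of_nonneg_left hu (norm_nonneg _))
      _ = C * ‖J‖ := by ring
  have h4 : C * ‖g‖ * ‖b.proj G (J u)‖ ≤ C * D * (C * ‖J‖) := by
    apply mul_le_mul _ h3 (norm_nonneg _) (by positivity)
    exact mul_le_mul_of_nonneg_left hgD (by linarith)
  linarith

end Q97.SuperADP
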