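import Pool.Agent.Q97.Weak
import Pool.Agent.Q97.SuperADP

set_option autoImplicit false

/-!
# From the topological definitions to the basic form (helper results)
-/

namespace Q97.SuperADP

open Finset

variable {𝕜 : Type*} [RCLike 𝕜] {X : Type*} [NormedAddCommGroup X] [NormedSpace 𝕜 X]

/-- In an infinite dimensional space finitely many functionals do not see the way to the sphere. -/
theorem exists_sphere_mem (hinf : ¬ FiniteDimensional 𝕜 X) (I : Finset (X →L[𝕜] 𝕜)) (u : X)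
    (hu : ‖u‖ ≤ 1) : ∃ v : X, ‖v‖ = 1 ∧ ∀ ψ ∈ I, ψ (v - u) = 0 := by
  classical
  obtain ⟨k, hk0, hk⟩ : ∃ k : X, k ≠ 0 ∧ ∀ ψ ∈ I, ψ k = 0 := by
    by_contra hcon
    push Not at hcon
    apply hinf
    let Ψ : X →ₗ[𝕜] (I → 𝕜) := LinearMap.pi (fun ψ => (ψ.1 : X →ₗ[𝕜] 𝕜))
    have hinj : Function.Injective Ψ := by
      rw [← LinearMap.ker_eq_bot, LinearMap.ker_eq_bot']
      intro m hm
      by_contra hm0
      obtain ⟨ψ, hψ, hne⟩ := hcon m hm0
      exact hne (congrFun hm ⟨ψ, hψ⟩)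
    exact Module.Finite.of_injective Ψ hinj
  have hkpos : 0 < ‖k‖ := norm_pos_iff.mpr hk0
  let φ : ℝ → ℝ := fun t => ‖u + ((t : ℝ) : 𝕜) • k‖
  have hcont : Continuous φ := by
    have : Continuous (fun t : ℝ => ((t : ℝ) : 𝕜)) := RCLike.continuous_ofReal
    fun_prop
  have h0 : φ 0 ≤ 1 := by simpa [φ] using hu
  have h1 : 1 ≤ φ (2 / ‖k‖) := by
    have h2 : ‖((2 / ‖k‖ : ℝ) : 𝕜) • k‖ = 2 := by
      rw [norm_smul, RCLike.norm_ofReal, abs_of_pos (by positivity)]
      field_simp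
    have h3 : ‖((2 / ‖k‖ : ℝ) : 𝕜) • k‖ ≤ ‖u + ((2 / ‖k‖ : ℝ) : 𝕜) • k‖ + ‖u‖ := by
      have := norm_sub_le (u + ((2 / ‖k‖ : ℝ) : 𝕜) • k) u
      rwa [add_sub_cancel_left] at this
    change 1 ≤ ‖u + ((2 / ‖k‖ : ℝ) : 𝕜) • k‖
    linarith
  have h2 : (0 : ℝ) ≤ 2 / ‖k‖ := by positivity
  obtain ⟨t, -, ht⟩ := intermediate_value_Icc h2 hcont.continuousOn ⟨h0, h1⟩
  refine ⟨u + ((t : ℝ) : 𝕜) • k, ht, ?_⟩
  intro ψ hψ
  rw [add_sub_cancel_left, map_smul, hk ψ hψ, smul_zero]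

end Q97.SuperADP

namespace Q97.OneUnconditional

open Finset

variable {X : Type*} [NormedAddCommGroup X] [NormedSpace ℝ X]

theorem norm_sum_mono {e : ℕ → X}
    (h : ∀ (s : Finset ℕ) (a ε : ℕ → ℝ), (∀ n, ε n = 1 ∨ ε n = -1) →
      ‖∑ n ∈ s, (ε n * a n) • e n‖ = ‖∑ n ∈ s, a n • e n‖)
    (a : ℕ → ℝ) {A B : Finset ℕ} (hAB : A ⊆ B) :
    ‖∑ n ∈ A, a n • e n‖ ≤ ‖∑ n ∈ B, a n • e n‖ := by
  classical
  have h1 := h B a (fun n => if n ∈ A then 1 else -1) (fun n => by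
    by_cases hn : n ∈ A <;> simp [hn])
  have h2 : ∑ n ∈ A, a n • e n = (1 / 2 : ℝ) • (∑ n ∈ B, a n • e n +
      ∑ n ∈ B, ((if n ∈ A then 1 else -1) * a n) • e n) := by
    rw [← sum_add_distrib, smul_sum, ← sum_subset hAB]
    · apply sum_congr rfl
      intro n hn
      rw [if_pos hn, one_mul, ← two_smul ℝ, smul_smul]
      norm_num
    · intro n _ hn
      rw [if_neg hn]
      simp
  rw [h2, norm_smul]
  have h3 := norm_add_le (∑ n ∈ B, a n • e n) (∑ n ∈ B, ((if n ∈ A then 1 else -1) * a n) • e n)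
  rw [h1] at h3
  have h4 : ‖(1 / 2 : ℝ)‖ = 1 / 2 := by norm_num
  rw [h4]
  linarith

/-- A `1`-unconditional Schauder basis is unconditional. -/
noncomputable def toUnconditional (b : SchauderBasis ℝ X)
    (h : ∀ (s : Finset ℕ) (a ε : ℕ → ℝ), (∀ n, ε n = 1 ∨ ε n = -1) →
      ‖∑ n ∈ s, (ε n * a n) • b n‖ = ‖∑ n ∈ s, a n • b n‖) :
    UnconditionalSchauderBasis ℕ ℝ X where
  basis := b.basis
  coord := b.coord
  ortho := b.ortho
  expansion x := by
    classical
    rw [HasSum, SummationFilter.unconditional_filter, Metric.tendsto_atTop]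
    intro δ hδ
    have ht := SchauderBasis.tendsto_proj b x
    rw [Metric.tendsto_atTop] at ht
    obtain ⟨N, hN⟩ := ht (δ / 3) (by positivity)
    refine ⟨range N, fun A hA => ?_⟩
    obtain ⟨M, hM⟩ : ∃ M, A ⊆ range M := by
      refine ⟨A.sup id + 1, fun n hn => ?_⟩
      rw [mem_range]
      exact Nat.lt_succ_of_le (le_sup (f := id) hn)
    have hNM : N ≤ M := by
      have := hA.trans hM
      by_contra hlt
      push Not at hlt
      have h1 : M ∈ range N := mem_range.mpr hlt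
      have h2 := this h1
      rw [mem_range] at h2
      exact lt_irrefl _ h2
    have h1 : ‖∑ n ∈ A \ range N, b.coord n x • b n‖ ≤
        ‖∑ n ∈ range M \ range N, b.coord n x • b n‖ :=
      norm_sum_mono h (fun n => b.coord n x) (sdiff_subset_sdiff hM le_rfl)
    have h2 : ∑ n ∈ range M \ range N, b.coord n x • b n = b.proj M x - b.proj N x := by
      rw [SchauderBasis.proj_apply, SchauderBasis.proj_apply,
        ← sum_sdiff (range_subset_range.mpr hNM)]
      simp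
    have h3 : ∑ n ∈ A, b.coord n x • b n = ∑ n ∈ A \ range N, b.coord n x • b n +
        b.proj N x := by
      rw [SchauderBasis.proj_apply, sum_sdiff hA]
    have h4 := hN N le_rfl
    have h5 := hN M hNM
    rw [dist_eq_norm] at h4 h5 ⊢
    have h6 : ‖b.proj M x - b.proj N x‖ ≤ ‖b.proj M x - x‖ + ‖b.proj N x - x‖ := by
      have : b.proj M x - b.proj N x = (b.proj M x - x) - (b.proj N x - x) := by abel
      rw [this]
      exact norm_sub_le _ _
    rw [h2] at h1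
    change ‖∑ n ∈ A, b.coord n x • b n - x‖ < δ
    rw [h3]
    calc ‖∑ n ∈ A \ range N, b.coord n x • b n + b.proj N x - x‖
        = ‖∑ n ∈ A \ range N, b.coord n x • b n + (b.proj N x - x)‖ := by rw [add_sub_assoc]
      _ ≤ ‖∑ n ∈ A \ range N, b.coord n x • b n‖ + ‖b.proj N x - x‖ := norm_add_le _ _
      _ < δ := by linarith

end Q97.OneUnconditional
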