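import Mathlib

set_option autoImplicit false

/-!
# Weak neighbourhoods in normed spaces (helper lemmas)
-/

namespace Q97

variable {𝕜 : Type*} [RCLike 𝕜] {X : Type*} [NormedAddCommGroup X] [NormedSpace 𝕜 X]

/-- Evaluation of a functional is weakly continuous. -/
theorem continuous_weak_eval (f : X →L[𝕜] 𝕜) :
    Continuous (fun z : WeakSpace 𝕜 X => f ((toWeakSpace 𝕜 X).symm z)) :=
  WeakBilin.eval_continuous (topDualPairing 𝕜 X).flip f

/-- Every weak neighbourhood contains a basic one. -/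
theorem exists_finset_of_isOpen_weak {U : Set (WeakSpace 𝕜 X)} (hU : IsOpen U) {x : X}
    (hx : toWeakSpace 𝕜 X x ∈ U) :
    ∃ (I : Finset (X →L[𝕜] 𝕜)) (δ : ℝ), 0 < δ ∧
      ∀ y : X, (∀ ψ ∈ I, ‖ψ (y - x)‖ < δ) → toWeakSpace 𝕜 X y ∈ U := by
  obtain ⟨O, hO, rfl⟩ := isOpen_induced_iff.mp hU
  obtain ⟨I, u, hu, hsub⟩ := isOpen_pi_iff.mp hO _ hx
  have hball : ∀ ψ : X →L[𝕜] 𝕜, ∃ ε : ℝ, 0 < ε ∧ (ψ ∈ I → Metric.ball (ψ x) ε ⊆ u ψ) := by
    intro ψ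
    by_cases hψ : ψ ∈ I
    · obtain ⟨ε, hε, h⟩ := Metric.isOpen_iff.mp (hu ψ hψ).1 _ (hu ψ hψ).2
      exact ⟨ε, hε, fun _ => h⟩
    · exact ⟨1, one_pos, fun h => absurd h hψ⟩
  choose ε hε hεu using hball
  have hδ : ∃ δ : ℝ, 0 < δ ∧ ∀ ψ ∈ I, δ ≤ ε ψ := by
    classical
    clear hsub hu
    induction I using Finset.induction_on with
    | empty => exact ⟨1, one_pos, by simp⟩
    | insert a s ha ih =>
      obtain ⟨δ, hδ, h⟩ := ih (fun ψ hψ => hεu ψ (Finset.mem_insert_of_mem hψ))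
      refine ⟨min δ (ε a), lt_min hδ (hε a), ?_⟩
      intro ψ hψ
      rcases Finset.mem_insert.mp hψ with rfl | h'
      · exact min_le_right _ _
      · exact (min_le_left _ _).trans (h ψ h')
  obtain ⟨δ, hδ, hle⟩ := hδ
  refine ⟨I, δ, hδ, ?_⟩
  intro y hy
  apply hsub
  intro ψ hψ
  apply hεu ψ hψ
  rw [Metric.mem_ball, dist_eq_norm]
  have : ψ y - ψ x = ψ (y - x) := by rw [map_sub]
  exact lt_of_eq_of_lt (congrArg norm this) (lt_of_lt_of_le (hy ψ hψ) (hle ψ hψ))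

/-- Open half spaces are weakly open. -/
theorem isOpen_weak_re_gt (f : X →L[𝕜] 𝕜) (a : ℝ) :
    IsOpen {z : WeakSpace 𝕜 X | a < RCLike.re (f ((toWeakSpace 𝕜 X).symm z))} :=
  isOpen_lt continuous_const (RCLike.continuous_re.comp (continuous_weak_eval f))

/-- Basic weak neighbourhoods are weakly open. -/
theorem isOpen_weak_basic (I : Finset (X →L[𝕜] 𝕜)) (x : X) (δ : ℝ) :
    IsOpen {z : WeakSpace 𝕜 X | ∀ ψ ∈ I, ‖ψ ((toWeakSpace 𝕜 X).symm z - x)‖ < δ} := by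
  have : {z : WeakSpace 𝕜 X | ∀ ψ ∈ I, ‖ψ ((toWeakSpace 𝕜 X).symm z - x)‖ < δ} =
      ⋂ ψ ∈ I, {z : WeakSpace 𝕜 X | ‖ψ ((toWeakSpace 𝕜 X).symm z - x)‖ < δ} := by
    ext z; simp
  rw [this]
  refine isOpen_biInter_finset ?_
  intro ψ _
  refine isOpen_lt ?_ continuous_const
  refine continuous_norm.comp ?_
  have h : (fun z : WeakSpace 𝕜 X => ψ ((toWeakSpace 𝕜 X).symm z - x)) =
      fun z : WeakSpace 𝕜 X => ψ ((toWeakSpace 𝕜 X).symm z) - ψ x := by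
    funext z; rw [map_sub]
  rw [h]
  exact (continuous_weak_eval ψ).sub continuous_const

end Q97

namespace Q97

variable {𝕜 : Type*} [RCLike 𝕜] {X : Type*} [NormedAddCommGroup X] [NormedSpace 𝕜 X]

/-- Every half space meeting the unit ball cuts out a slice given by a norm one functional. -/
theorem exists_slice_of_halfspace (hne : ∃ f : X →L[𝕜] 𝕜, ‖f‖ = 1) (g : X →L[𝕜] 𝕜) (a : ℝ)
    (x : X) (hx : ‖x‖ ≤ 1) (hgx : a < RCLike.re (g x)) :
    ∃ (f : X →L[𝕜] 𝕜) (α : ℝ), ‖f‖ = 1 ∧ 0 < α ∧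
      ∀ y : X, ‖y‖ ≤ 1 → (1 - α < RCLike.re (f y) ↔ a < RCLike.re (g y)) := by
  by_cases h0 : g = 0
  · obtain ⟨g0, hg0⟩ := hne
    refine ⟨g0, 3, hg0, by norm_num, ?_⟩
    intro u hu
    have h1 : |RCLike.re (g0 u)| ≤ 1 := by
      calc |RCLike.re (g0 u)| ≤ ‖g0 u‖ := RCLike.abs_re_le_norm _
        _ ≤ ‖g0‖ * ‖u‖ := g0.le_opNorm u
        _ ≤ 1 := by rw [hg0]; linarith
    rw [abs_le] at h1
    constructor
    · intro _
      rw [h0] at hgx ⊢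
      simpa using hgx
    · intro _
      linarith [h1.1]
  · have hpos : 0 < ‖g‖ := norm_pos_iff.mpr h0
    set f : X →L[𝕜] 𝕜 := (((‖g‖⁻¹ : ℝ) : 𝕜)) • g with hf
    have hfre : ∀ u, RCLike.re (f u) = RCLike.re (g u) / ‖g‖ := by
      intro u
      rw [hf, _root_.smul_apply, smul_eq_mul, RCLike.re_ofReal_mul, div_eq_inv_mul]
    have hfn : ‖f‖ = 1 := by
      rw [hf, norm_smul, RCLike.norm_ofReal, abs_of_pos (inv_pos.mpr hpos),
        inv_mul_cancel₀ hpos.ne']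
    have hiff : ∀ u : X, (1 - (1 - a / ‖g‖) < RCLike.re (f u) ↔ a < RCLike.re (g u)) := by
      intro u
      rw [hfre]
      have : 1 - (1 - a / ‖g‖) = a / ‖g‖ := by ring
      rw [this, div_lt_div_iff_of_pos_right hpos]
    refine ⟨f, 1 - a / ‖g‖, hfn, ?_, fun u _ => hiff u⟩
    have h1 := (hiff x).2 hgx
    have h2 : RCLike.re (f x) ≤ 1 := by
      calc RCLike.re (f x) ≤ ‖f x‖ := RCLike.re_le_norm _
        _ ≤ ‖f‖ * ‖x‖ := f.le_opNorm _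
        _ ≤ 1 := by rw [hfn, one_mul]; exact hx
    linarith

end Q97
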