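import Pool.Agent.Q97.Weak

set_option autoImplicit false

/-!
# Weakly null sequences (helper lemmas)
-/

namespace Q97

open Filter Topology

variable {X : Type*} [NormedAddCommGroup X] [NormedSpace ℝ X]

/-- If all signed finite sums of `v` are uniformly bounded, then `v` is weakly null. -/
theorem tendsto_zero_of_signed_sums {v : ℕ → X} {C : ℝ}
    (h : ∀ (F : Finset ℕ) (ε : ℕ → ℝ), (∀ n, |ε n| ≤ 1) → ‖∑ n ∈ F, ε n • v n‖ ≤ C)
    (f : X →L[ℝ] ℝ) : Tendsto (fun n => f (v n)) atTop (𝓝 0) := by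
  have hsum : Summable (fun n => |f (v n)|) := by
    refine summable_of_sum_le (c := ‖f‖ * C) (fun n => abs_nonneg _) ?_
    intro F
    set ε : ℕ → ℝ := fun n => SignType.sign (f (v n)) with hε
    have hε1 : ∀ n, |ε n| ≤ 1 := by
      intro n
      rw [hε]
      rcases lt_trichotomy (f (v n)) 0 with h1 | h1 | h1
      · simp [h1]
      · simp [h1]
      · simp [h1]
    have h1 : ∑ n ∈ F, |f (v n)| = f (∑ n ∈ F, ε n • v n) := by
      rw [map_sum]
      apply Finset.sum_congr rfl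
      intro n _
      rw [map_smul, smul_eq_mul, hε]
      exact (sign_mul_self _).symm
    rw [h1]
    calc f (∑ n ∈ F, ε n • v n) ≤ ‖f (∑ n ∈ F, ε n • v n)‖ := Real.le_norm_self _
      _ ≤ ‖f‖ * ‖∑ n ∈ F, ε n • v n‖ := f.le_opNorm _
      _ ≤ ‖f‖ * C := mul_le_mul_of_nonneg_left (h F ε hε1) (norm_nonneg _)
  exact (tendsto_zero_iff_abs_tendsto_zero _).mpr hsum.tendsto_atTop_zero

/-- Bounded multiples of a weakly null sequence eventually stay in weak neighbourhoods. -/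
theorem eventually_mem_of_weaklyNull {U : Set (WeakSpace ℝ X)} (hU : IsOpen U) {y : X}
    (hy : toWeakSpace ℝ X y ∈ U) {v : ℕ → X}
    (hv : ∀ f : X →L[ℝ] ℝ, Tendsto (fun n => f (v n)) atTop (𝓝 0)) {c : ℕ → ℝ} {K : ℝ}
    (hc : ∀ n, |c n| ≤ K) : ∀ᶠ n in atTop, toWeakSpace ℝ X (y + c n • v n) ∈ U := by
  obtain ⟨I, δ, hδ, hI⟩ := exists_finset_of_isOpen_weak hU hy
  have hK : 0 < |K| + 1 := by positivity
  have h1 : ∀ᶠ n in atTop, ∀ ψ ∈ I, |ψ (v n)| < δ / (|K| + 1) := by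
    rw [Filter.eventually_all_finset]
    intro ψ _
    have := (Metric.tendsto_nhds.mp (hv ψ)) (δ / (|K| + 1)) (by positivity)
    filter_upwards [this] with n hn
    rwa [Real.dist_eq, sub_zero] at hn
  filter_upwards [h1] with n hn
  apply hI
  intro ψ hψ
  rw [add_sub_cancel_left, map_smul, smul_eq_mul, norm_mul, Real.norm_eq_abs, Real.norm_eq_abs]
  have h2 := hn ψ hψ
  have h3 : |c n| ≤ |K| + 1 := (hc n).trans ((le_abs_self K).trans (by linarith))
  calc |c n| * |ψ (v n)| ≤ (|K| + 1) * |ψ (v n)| :=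
        mul_le_mul_of_nonneg_right h3 (abs_nonneg _)
    _ < (|K| + 1) * (δ / (|K| + 1)) := mul_lt_mul_of_pos_left h2 hK
    _ = δ := by field_simp

end Q97
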