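import Pool.Agent.Q97.C0b
import Pool.Agent.Q97.L2Sum

set_option autoImplicit false

/-!
# The weighted diagonal map from null sequences to square summable sequences
-/

namespace Q97

open Filter Topology

/-- Square summable real sequences. -/
abbrev l2 := lp (fun _ : ℕ => ℝ) 2

theorem memlp_weighted (z : C0) : Memℓp (fun k => (1 / 2 : ℝ) ^ k * z k) 2 := by
  apply memℓp_gen
  have h1 : Summable (fun k : ℕ => (1 / 4 : ℝ) ^ k * ‖z‖ ^ 2) :=
    (summable_geometric_of_lt_one (by norm_num) (by norm_num)).mul_right _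
  refine Summable.of_nonneg_of_le (fun k => by positivity) (fun k => ?_) h1
  have h2 : ‖(1 / 2 : ℝ) ^ k * z k‖ ^ (2 : ENNReal).toReal = ‖(1 / 2 : ℝ) ^ k * z k‖ ^ 2 := by
    simp
  rw [h2, norm_mul, mul_pow, Real.norm_eq_abs, Real.norm_eq_abs, abs_pow]
  have h3 : |(1 / 2 : ℝ)| = 1 / 2 := by norm_num
  have h4 : (((1 : ℝ) / 2) ^ k) ^ 2 = (1 / 4) ^ k := by
    rw [← pow_mul, mul_comm, pow_mul]; norm_num
  rw [h3, h4]
  exact mul_le_mul_of_nonneg_left (pow_le_pow_left₀ (abs_nonneg _) (C0.abs_apply_le z k) 2)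
    (by positivity)

/-- The weighted diagonal map. -/
noncomputable def wgt : C0 →ₗ[ℝ] l2 where
  toFun z := ⟨fun k => (1 / 2 : ℝ) ^ k * z k, memlp_weighted z⟩
  map_add' z w := by
    apply lp.ext
    funext k
    change (1 / 2 : ℝ) ^ k * (z + w) k = (1 / 2 : ℝ) ^ k * z k + (1 / 2 : ℝ) ^ k * w k
    rw [C0.add_apply]; ring
  map_smul' c z := by
    apply lp.ext
    funext k
    change (1 / 2 : ℝ) ^ k * (c • z) k = c * ((1 / 2 : ℝ) ^ k * z k)
    rw [C0.smul_apply]; ring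

theorem wgt_apply (z : C0) (k : ℕ) : wgt z k = (1 / 2 : ℝ) ^ k * z k := rfl

theorem norm_wgt_le (z : C0) : ‖wgt z‖ ≤ 2 * ‖z‖ := by
  apply le_of_sq_le_sq _ (by positivity)
  have h1 := L2_hasSum_norm_sq (wgt z)
  have h2 : HasSum (fun k : ℕ => (1 / 4 : ℝ) ^ k * ‖z‖ ^ 2) ((1 - 1 / 4)⁻¹ * ‖z‖ ^ 2) :=
    (hasSum_geometric_of_lt_one (by norm_num) (by norm_num)).mul_right _
  have h3 : ‖wgt z‖ ^ 2 ≤ (1 - 1 / 4)⁻¹ * ‖z‖ ^ 2 := by
    refine hasSum_le (fun k => ?_) h1 h2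
    rw [wgt_apply, norm_mul, mul_pow, Real.norm_eq_abs, Real.norm_eq_abs, abs_pow]
    have h3 : |(1 / 2 : ℝ)| = 1 / 2 := by norm_num
    have h4 : (((1 : ℝ) / 2) ^ k) ^ 2 = (1 / 4) ^ k := by
      rw [← pow_mul, mul_comm, pow_mul]; norm_num
    rw [h3, h4]
    exact mul_le_mul_of_nonneg_left (pow_le_pow_left₀ (abs_nonneg _) (C0.abs_apply_le z k) 2)
      (by positivity)
  nlinarith [sq_nonneg ‖z‖]

theorem wgt_injective : Function.Injective wgt := by
  intro z w h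
  apply C0.ext
  intro k
  have h1 : wgt z k = wgt w k := by rw [h]
  rw [wgt_apply, wgt_apply] at h1
  exact mul_left_cancel₀ (by positivity) h1

theorem norm_wgt_e (n : ℕ) : ‖wgt (C0.e n)‖ = (1 / 2 : ℝ) ^ n := by
  have h : wgt (C0.e n) = lp.single 2 n ((1 / 2 : ℝ) ^ n) := by
    apply lp.ext
    funext k
    rw [wgt_apply, C0.e_apply]
    by_cases hk : k = n
    · subst hk; simp
    · rw [if_neg hk, mul_zero, lp.single_apply_ne 2 n _ hk]
  rw [h, lp.norm_single (by norm_num)]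
  rw [Real.norm_eq_abs, abs_of_nonneg (by positivity)]

end Q97
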